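import Pool.Agent.helper27.SY.Spec

set_option autoImplicit false

namespace Pool.Agent.SY

open Finset ArithmeticFunction Pool.Agent.SX Pool.Agent.helper85.BVP

theorem PAR : PAR_stmt := by
  intro x hx
  have hx0 : (0 : ℝ) ≤ x := le_trans (by norm_num) hx
  set N := ⌊x⌋₊ with hN
  have hNx : (N : ℝ) ≤ x := Nat.floor_le hx0
  have hxN : x < (N : ℝ) + 1 := Nat.lt_floor_add_one x
  have hN1 : 485 * 2 ^ 15 ≤ N := by
    apply Nat.le_floor
    have h : ((485 * 2 ^ 15 : ℕ) : ℝ) = 485 * 2 ^ 15 := by norm_num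
    rw [h]
    exact hx
  set o := Nat.log 2 (N / 485) with ho
  have h1 : 2 ^ 15 ≤ N / 485 := by omega
  have hne : N / 485 ≠ 0 := by
    have : 0 < 2 ^ 15 := by norm_num
    omega
  have h2 : 15 ≤ o := by
    rw [ho]
    exact (Nat.le_log_iff_pow_le (by norm_num) hne).mpr h1
  have h3 : 2 ^ o ≤ N / 485 := Nat.pow_log_le_self 2 hne
  have h4 : N / 485 < 2 ^ (o + 1) := Nat.lt_pow_succ_log_self (by norm_num) _
  have hpos : 0 < 2 ^ o := pow_pos (by norm_num) o
  rw [pow_succ] at h4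
  generalize hP : 2 ^ o = P at h3 h4 hpos
  have h5 : 485 * P ≤ N := by omega
  have h6 : N < 970 * P := by omega
  have h7 : N / P * P ≤ N := Nat.div_mul_le_self N P
  have h8 : N < (N / P + 1) * P := by
    have e1 := Nat.div_add_mod N P
    have e2 := Nat.mod_lt N hpos
    nlinarith
  have hPR : ((2 : ℝ) ^ o) = (P : ℝ) := by
    rw [← hP]; push_cast; rfl
  refine ⟨o, N / P, h2, ?_, ?_, ?_, ?_⟩
  · exact (Nat.le_div_iff_mul_le hpos).mpr h5
  · exact (Nat.div_lt_iff_lt_mul hpos).mpr h6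
  · rw [hPR]
    calc ((N / P : ℕ) : ℝ) * P = ((N / P * P : ℕ) : ℝ) := by push_cast; ring
      _ ≤ N := by exact_mod_cast h7
      _ ≤ x := hNx
  · rw [hPR]
    have h9 : (N : ℝ) + 1 ≤ (((N / P + 1) * P : ℕ) : ℝ) := by exact_mod_cast h8
    calc x < (N : ℝ) + 1 := hxN
      _ ≤ (((N / P + 1) * P : ℕ) : ℝ) := h9
      _ = (((N / P : ℕ) : ℝ) + 1) * P := by push_cast; ring

end Pool.Agent.SY
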